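import Pool.Agent.Helper97.Nag.Goals1
import Pool.Agent.Helper96.Tate.THC

/-!
# Project NAGATA, packet BLKX: independence of the columns from the independence of lattice points
-/

set_option autoImplicit false

noncomputable section

namespace Pool.Agent.Helper90.Nag.BLKX

open Pool.Agent.Helper97.Nag

open Pool.Agent.Helper97.Tate (OO KK qe)

open Pool.Agent.Helper96.Tate.THC (qe_bounds tri_spec)

theorem coeff_ENTX (d : ℕ) (u : ℚ) (α β j ρ N : ℕ) (g : ℤ) :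
    (PowerSeries.coeff N (ENTX d u α β j ρ)).coeff g =
      (PowerSeries.coeff N (FX d j ρ)).coeff g * ((Ring.choose g α : ℤ) : ℚ) *
        (j.choose β : ℚ) * u ^ g := by
  unfold ENTX
  rw [PowerSeries.coeff_mk, AddMonoidAlgebra.coeff_finsuppSum, Finsupp.sum_apply, Finsupp.sum,
    Finset.sum_eq_single g]
  · rw [AddMonoidAlgebra.coeff_single, Finsupp.single_apply, if_pos rfl]
  · intro h _ hne
    rw [AddMonoidAlgebra.coeff_single, Finsupp.single_apply, if_neg hne]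
  · intro h
    rw [Finsupp.notMem_support_iff] at h
    rw [AddMonoidAlgebra.coeff_single, Finsupp.single_apply, if_pos rfl, h]
    simp

theorem coeff_ThX (κ : ℕ) (ρ : ℤ) (N : ℕ) (g : ℤ) :
    (PowerSeries.coeff N (ThX κ ρ)).coeff g = ∑ a ∈ Finset.Icc (-(N : ℤ)) (N + 1),
      if qe κ ρ a = N ∧ ρ + κ * a = g then (1 : ℚ) else 0 := by
  unfold ThX
  rw [PowerSeries.coeff_mk, AddMonoidAlgebra.coeff_sum, Finsupp.finsetSum_apply]
  refine Finset.sum_congr rfl fun a _ => ?_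
  by_cases h : qe κ ρ a = N
  · rw [if_pos h, AddMonoidAlgebra.coeff_single, Finsupp.single_apply]
    by_cases h2 : ρ + κ * a = g
    · rw [if_pos h2, if_pos ⟨h, h2⟩]
    · rw [if_neg h2, if_neg fun h' => h2 h'.2]
  · rw [if_neg h, if_neg fun h' => h h'.1]
    simp

theorem exists_of_coeff_ThX (κ : ℕ) (ρ : ℤ) (N : ℕ) (g : ℤ)
    (hne : (PowerSeries.coeff N (ThX κ ρ)).coeff g ≠ 0) :
    ∃ a : ℤ, qe κ ρ a = N ∧ ρ + κ * a = g := by
  rw [coeff_ThX] at hne
  obtain ⟨a, -, h⟩ := Finset.exists_ne_zero_of_sum_ne_zero hne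
  refine ⟨a, ?_⟩
  by_contra h3
  rw [if_neg h3] at h
  exact h rfl

theorem coeff_ThX_eq (κ : ℕ) (ρ : ℤ) (hr : 0 ≤ ρ) (hk : ρ < κ) (N : ℕ) (a : ℤ)
    (h : qe κ ρ a = N) : (PowerSeries.coeff N (ThX κ ρ)).coeff (ρ + κ * a) = 1 := by
  rw [coeff_ThX, Finset.sum_eq_single a]
  · rw [if_pos ⟨h, rfl⟩]
  · intro b _ hb
    rw [if_neg]
    rintro ⟨-, h2⟩
    have h3 : (κ : ℤ) * b = κ * a := by linarith
    have hκ : (κ : ℤ) ≠ 0 := by omega
    exact hb (mul_left_cancel₀ hκ h3)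
  · intro hn
    exfalso
    apply hn
    rw [Finset.mem_Icc]
    have h4 := qe_bounds κ ρ a hr hk
    rw [h] at h4
    constructor
    · linarith [h4.2]
    · linarith [h4.1]

theorem two_qe (κ : ℕ) (ρ a : ℤ) : 2 * ((qe κ ρ a : ℤ) : ℝ) = 2 * ρ * a + κ * (a * (a - 1)) := by
  have h := tri_spec a
  have h2 : 2 * qe κ ρ a = 2 * ρ * a + κ * (a * (a - 1)) := by
    unfold qe
    generalize a * (a - 1) / 2 = m at h ⊢
    rw [← h]
    ring
  exact_mod_cast h2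

theorem weight_lt (v rho : ℝ) (κ : ℕ) (hκ : (κ : ℝ) = 9 * v) (hκ0 : (0 : ℝ) < κ) (ρ a0 a : ℤ)
    (h1 : rho * v < ((ρ + κ * a0 : ℤ) : ℝ)) (h2 : ((ρ + κ * a0 : ℤ) : ℝ) < (rho + 9) * v)
    (hne : a ≠ a0) :
    ((qe κ ρ a0 : ℤ) : ℝ) + -rho / 9 * ((ρ + κ * a0 : ℤ) : ℝ) <
      ((qe κ ρ a : ℤ) : ℝ) + -rho / 9 * ((ρ + κ * a : ℤ) : ℝ) := by
  have e1 := two_qe κ ρ a0
  have e2 := two_qe κ ρ a
  push_cast at h1 h2 ⊢
  obtain ⟨b, hb⟩ : ∃ b : ℤ, a = a0 + b := ⟨a - a0, by ring⟩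
  have hb0 : b ≠ 0 := by
    rintro rfl
    exact hne (by rw [hb, add_zero])
  have key : ((qe κ ρ a : ℤ) : ℝ) + -rho / 9 * (ρ + κ * a) -
      (((qe κ ρ a0 : ℤ) : ℝ) + -rho / 9 * (ρ + κ * a0)) =
      b * ((ρ + κ * a0) - rho * v + κ * (b - 1) / 2) := by
    have e3 : ((qe κ ρ a : ℤ) : ℝ) = ρ * a + κ * (a * (a - 1)) / 2 := by linarith
    have e4 : ((qe κ ρ a0 : ℤ) : ℝ) = ρ * a0 + κ * (a0 * (a0 - 1)) / 2 := by linarith
    have e5 : v = κ / 9 := by linarith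
    rw [e3, e4, e5, hb]
    push_cast
    ring
  have hpos : 0 < (b : ℝ) * ((ρ + κ * a0) - rho * v + κ * (b - 1) / 2) := by
    rcases lt_or_gt_of_ne hb0 with h | h
    · have h3 : (b : ℝ) ≤ -1 := by
        have : b ≤ -1 := by omega
        exact_mod_cast this
      apply mul_pos_of_neg_of_neg (by linarith)
      have h4 : (κ : ℝ) * (b + 1) ≤ 0 := mul_nonpos_of_nonneg_of_nonpos hκ0.le (by linarith)
      nlinarith
    · have h3 : (1 : ℝ) ≤ b := by
        have : 1 ≤ b := by omega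
        exact_mod_cast this
      apply mul_pos (by linarith)
      have h4 : 0 ≤ (κ : ℝ) * (b - 1) := mul_nonneg hκ0.le (by linarith)
      linarith
  linarith

theorem level (d : ℕ) (rho : ℝ) (j : ℕ) (n : ℤ) (h : InT d rho j n) : ∃ N₀ : ℕ,
    (PowerSeries.coeff N₀ (FX d j (n % ((3 * (d - 3 * j) : ℕ) : ℤ)).toNat)).coeff n = 1 ∧
    ∀ (N : ℕ) (g : ℤ),
      (PowerSeries.coeff N (FX d j (n % ((3 * (d - 3 * j) : ℕ) : ℤ)).toNat)).coeff g ≠ 0 →
      (N₀ : ℝ) + -rho / 9 * n ≤ N + -rho / 9 * g ∧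
        ((N₀ : ℝ) + -rho / 9 * n = N + -rho / 9 * g → N = N₀ ∧ g = n) := by
  rcases h with ⟨h1, h2, h3⟩ | ⟨h1, h2⟩
  · set κ : ℕ := 3 * (d - 3 * j) with hκ
    have hκ0 : (0 : ℤ) < κ := by omega
    set ρ : ℤ := n % (κ : ℤ) with hρ
    have hρ0 : 0 ≤ ρ := Int.emod_nonneg _ hκ0.ne'
    have hρ1 : ρ < κ := Int.emod_lt_of_pos _ hκ0
    have hFX : FX d j ρ.toNat = ThX κ ρ := by
      unfold FX
      rw [if_neg (by omega), ← hκ, Int.toNat_of_nonneg hρ0]
    rw [hFX]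
    set a0 : ℤ := n / κ with ha0
    have hn : ρ + κ * a0 = n := Int.emod_add_mul_ediv n κ
    have hq0 : 0 ≤ qe κ ρ a0 := by
      have h4 := qe_bounds κ ρ a0 hρ0 hρ1
      rcases le_or_gt a0 0 with h5 | h5
      · linarith [h4.2]
      · linarith [h4.1]
    obtain ⟨N₀, hN₀⟩ := Int.eq_ofNat_of_zero_le hq0
    have hκv : (κ : ℝ) = 9 * ((d : ℝ) / 3 - j) := by
      rw [hκ]
      push_cast [Nat.cast_sub h1.le]
      ring
    have hκ0' : (0 : ℝ) < κ := by exact_mod_cast hκ0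
    refine ⟨N₀, ?_, ?_⟩
    · rw [← hn]
      exact coeff_ThX_eq κ ρ hρ0 hρ1 N₀ a0 hN₀
    · intro N g hne
      obtain ⟨a, ha1, ha2⟩ := exists_of_coeff_ThX κ ρ N g hne
      by_cases haa : a = a0
      · subst haa
        have h5 : N = N₀ := by
          have : (N : ℤ) = N₀ := by rw [← ha1, hN₀]
          exact_mod_cast this
        have h6 : g = n := by rw [← ha2, hn]
        subst h5
        subst h6
        exact ⟨le_rfl, fun _ => ⟨rfl, rfl⟩⟩
      · have h7 := weight_lt ((d : ℝ) / 3 - j) rho κ hκv hκ0' ρ a0 a (by rw [hn]; exact h2)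
          (by rw [hn]; exact h3) haa
        rw [ha1, ha2, hN₀, hn] at h7
        push_cast at h7
        exact ⟨h7.le, fun h8 => absurd h8 h7.ne⟩
  · subst h2
    have hFX : ∀ ρ, FX d j ρ = 1 := by
      intro ρ
      unfold FX
      rw [if_pos h1]
    rw [hFX]
    refine ⟨0, ?_, ?_⟩
    · rw [PowerSeries.coeff_zero_one, AddMonoidAlgebra.one_def, AddMonoidAlgebra.coeff_single,
        Finsupp.single_apply, if_pos rfl]
    · intro N g hne
      rw [PowerSeries.coeff_one] at hne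
      by_cases hN : N = 0
      · rw [if_pos hN, AddMonoidAlgebra.one_def, AddMonoidAlgebra.coeff_single,
          Finsupp.single_apply] at hne
        have hg : g = 0 := by
          by_contra h3
          rw [if_neg fun h4 => h3 h4.symm] at hne
          exact hne rfl
        subst hN
        subst hg
        exact ⟨le_rfl, fun _ => ⟨rfl, rfl⟩⟩
      · rw [if_neg hN] at hne
        simp at hne

theorem t (hD : S_DETR) (hE : S_ENTX) : S_BLKX := by
  classical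
  intro F _ _ d b M rho x hgen x' hx' C hC hind a ha
  obtain ⟨f, hf, hfe⟩ := hE F d x hgen
  choose N₀ hlead hall using fun c : {c // c ∈ C} => level d rho c.1.1 c.1.2 (hC c.1 c.2)
  set bw : ℤ →+ ℝ := (AddMonoidHom.mulLeft (-rho / 9)).comp (Int.castAddHom ℝ) with hbw
  have hbwa : ∀ n : ℤ, bw n = -rho / 9 * (n : ℝ) := fun n => rfl
  have key := hD ℤ {ρ : Σ l : Fin b, Fin (M l) × Fin (M l) // (ρ.2.1 : ℕ) + (ρ.2.2 : ℕ) < M ρ.1}
    {c // c ∈ C} Unit bw (fun _ => ()) (fun _ => ())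
    (fun ρ c => ENTX d (((ρ.1.1 : ℕ) : ℚ) + 1) (ρ.1.2.1 : ℕ) (ρ.1.2.2 : ℕ) c.1.1
      (c.1.2 % ((3 * (d - 3 * c.1.1) : ℕ) : ℤ)).toNat)
    (fun c => (N₀ c : ℝ) + -rho / 9 * (c.1.2 : ℝ)) (fun _ => 0)
    (fun c => N₀ c) (fun c => c.1.2)
    (fun ρ c => ((Ring.choose c.1.2 (ρ.1.2.1 : ℕ) : ℤ) : ℚ) *
      ((c.1.1.choose (ρ.1.2.2 : ℕ) : ℕ) : ℚ) * (((ρ.1.1 : ℕ) : ℚ) + 1) ^ c.1.2)
    ?_ ?_ ?_ ?_ (KK F) f hf (fun c => a c.1) ?_
  · intro c hc
    exact congrFun key ⟨c, hc⟩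
  · -- weights
    rintro ρ c N g hne
    rw [coeff_ENTX] at hne
    have h1 : (PowerSeries.coeff N (FX d c.1.1
        (c.1.2 % ((3 * (d - 3 * c.1.1) : ℕ) : ℤ)).toNat)).coeff g ≠ 0 := by
      intro h0
      apply hne
      rw [h0, zero_mul, zero_mul, zero_mul]
    obtain ⟨A, B⟩ := hall c N g h1
    simp only [hbwa, add_zero]
    exact ⟨A, fun h => ⟨trivial, B h⟩⟩
  · intro c
    simp only [hbwa, add_zero]
  · rintro ρ c -
    rw [coeff_ENTX, hlead c, one_mul]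
  · -- independence of the leading coefficients
    intro e he
    set φ : {c // c ∈ C} → ℤ × ℤ := fun c => ((c.1.1 : ℤ), c.1.2) with hφ
    have hinj : Function.Injective φ := by
      rintro ⟨⟨j, n⟩, hc⟩ ⟨⟨j', n'⟩, hc'⟩ h
      simp only [hφ, Prod.mk.injEq] at h
      obtain ⟨h1, h2⟩ := h
      have h3 : j = j' := by exact_mod_cast h1
      subst h3
      subst h2
      rfl
    have himg : (C.image fun c => ((c.1 : ℤ), c.2)) = Finset.univ.image φ := by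
      ext q
      simp only [Finset.mem_image, Finset.mem_univ, true_and, hφ]
      constructor
      · rintro ⟨c, hc, rfl⟩
        exact ⟨⟨c, hc⟩, rfl⟩
      · rintro ⟨c, rfl⟩
        exact ⟨c.1, c.2, rfl⟩
    have hz := hind (Function.extend φ e 0) (by
      intro l α β hαβ
      rw [himg, Finset.sum_image fun _ _ _ _ h => hinj h]
      have h6 := he ⟨⟨l, (⟨α, by omega⟩, ⟨β, by omega⟩)⟩, hαβ⟩
      simp only [Finset.filter_true] at h6
      rw [← h6]
      refine Finset.sum_congr rfl fun c _ => ?_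
      rw [hinj.extend_apply]
      have h8 : (Ring.choose (φ c).1 β : ℤ) = ((c.1.1.choose β : ℕ) : ℤ) :=
        Ring.choose_natCast c.1.1 β
      rw [h8]
      simp only [hφ]
      push_cast
      ring)
    funext c
    have hc0 := hz (φ c) (by
      rw [himg]
      exact Finset.mem_image_of_mem _ (Finset.mem_univ _))
    rw [hinj.extend_apply] at hc0
    exact hc0
  · -- the relations
    intro ρ
    rw [← ha ρ.1.1 (ρ.1.2.1 : ℕ) (ρ.1.2.2 : ℕ) ρ.2, ← Finset.sum_coe_sort C]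
    refine Finset.sum_congr rfl fun c _ => ?_
    rw [hfe (((ρ.1.1 : ℕ) : ℚ) + 1) (x' ρ.1.1) (by positivity) (by
      rw [hx' ρ.1.1]
      push_cast
      rfl), mul_comm]

end Pool.Agent.Helper90.Nag.BLKX
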